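import Pool.Agent.Helper44.GH.Stmts

/-!
# The expectation of a multi-affine function (module PE of MP_d210aa_gt)
-/

open Finset

namespace Pool.Agent.Helper2.GH

open Pool.Agent.Helper44.GF Pool.Agent.Helper44.GN Pool.Agent.Helper44.GH

theorem pe_upd {n : ℕ} (y : Fin n → ℝ) (i : Fin n) (s : ℝ) :
    Function.update y i (y i + s) = y + s • Pi.single i (1 : ℝ) := by
  funext j
  by_cases hj : j = i
  · subst hj
    simp
  · simp [Function.update_of_ne hj, Pi.single_eq_of_ne hj]

theorem pe_key {n : ℕ} {ι : Type} [DecidableEq ι] (F : (Fin n → ℝ) → ℝ) (hF : MA F)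
    (p : ι → Fin n) (w r : ι → ℝ) (hw : ∀ x, 0 ≤ w x) (hr : ∀ x, 0 ≤ r x) (S : Finset ι) :
    ∀ b ∈ Og n, ∑ η ∈ S.powerset, (∏ x ∈ η, w x)
        * F (b + ∑ x ∈ η, r x • Pi.single (p x) (1 : ℝ))
      = (∏ x ∈ S, (1 + w x))
        * F (b + ∑ x ∈ S, (r x * (w x / (1 + w x))) • Pi.single (p x) (1 : ℝ)) := by
  induction S using Finset.induction_on with
  | empty =>
    intro b hb
    simp
  | insert a S ha ih =>
    intro b hb
    have hs : ∀ (c : ℝ) (i : Fin n), 0 ≤ c → ∀ j, 0 ≤ (c • Pi.single (M := fun _ => ℝ) i (1 : ℝ)) j := by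
      intro c i hc j
      rw [Pi.smul_apply, smul_eq_mul]
      refine mul_nonneg hc ?_
      by_cases hj : j = i
      · subst hj
        simp
      · rw [Pi.single_eq_of_ne hj]
    have hb' : b + r a • Pi.single (p a) (1 : ℝ) ∈ Og n := by
      intro j
      have h1 := hs (r a) (p a) (hr a) j
      have h2 := hb j
      simp only [Pi.add_apply]
      linarith
    have hq : ∀ x, 0 ≤ w x / (1 + w x) := fun x => div_nonneg (hw x) (by linarith [hw x])
    set c : Fin n → ℝ := ∑ x ∈ S, (r x * (w x / (1 + w x))) • Pi.single (p x) (1 : ℝ) with hc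
    have hy : b + c ∈ Og n := by
      intro j
      have h2 := hb j
      have h3 : 0 ≤ c j := by
        rw [hc, Finset.sum_apply]
        exact Finset.sum_nonneg fun x _ => hs _ _ (mul_nonneg (hr x) (hq x)) j
      simp only [Pi.add_apply]
      linarith
    rw [Finset.sum_powerset_insert ha, ih b hb]
    have h1 : ∑ η ∈ S.powerset, (∏ x ∈ insert a η, w x)
        * F (b + ∑ x ∈ insert a η, r x • Pi.single (p x) (1 : ℝ))
      = w a * ∑ η ∈ S.powerset, (∏ x ∈ η, w x)
        * F (b + r a • Pi.single (p a) (1 : ℝ) + ∑ x ∈ η, r x • Pi.single (p x) (1 : ℝ)) := by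
      rw [Finset.mul_sum]
      refine Finset.sum_congr rfl fun η hη => ?_
      have haη : a ∉ η := fun h => ha (Finset.mem_powerset.1 hη h)
      rw [Finset.prod_insert haη, Finset.sum_insert haη, mul_assoc, add_assoc]
    rw [h1, ih _ hb', Finset.prod_insert ha, Finset.sum_insert ha, ← hc]
    obtain ⟨κ, hκ⟩ := hF (b + c) hy (p a)
    have h2 := hκ (r a) (hr a)
    have h3 := hκ (r a * (w a / (1 + w a))) (mul_nonneg (hr a) (hq a))
    rw [pe_upd] at h2 h3
    have e1 : b + r a • Pi.single (p a) (1 : ℝ) + c = b + c + r a • Pi.single (p a) (1 : ℝ) := by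
      abel
    have e2 : b + ((r a * (w a / (1 + w a))) • Pi.single (p a) (1 : ℝ) + c)
        = b + c + (r a * (w a / (1 + w a))) • Pi.single (p a) (1 : ℝ) := by
      abel
    rw [e1, e2, h2, h3]
    have h4 : (1 + w a) ≠ 0 := by linarith [hw a]
    field_simp
    ring

theorem pe_sum_mem {n : ℕ} {Y : Type} [Fintype Y] [DecidableEq Y] (E : Fin n → ℝ) (r : Y → ℝ)
    (d : ℝ) (η : Finset (Fin n × Y)) :
    ∑ i, tau d r η i * E i = d * ∑ i, E i + ∑ x ∈ η, E x.1 * r x.2 := by
  have h1 : ∑ x ∈ η, E x.1 * r x.2 = ∑ x : Fin n × Y, if x ∈ η then E x.1 * r x.2 else 0 := by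
    rw [← Finset.sum_filter]
    simp
  rw [h1, Fintype.sum_prod_type, Finset.mul_sum, ← Finset.sum_add_distrib]
  refine Finset.sum_congr rfl fun i _ => ?_
  unfold tau
  rw [add_mul, Finset.sum_mul]
  congr 1
  refine Finset.sum_congr rfl fun y _ => ?_
  split_ifs
  · ring
  · ring

theorem pe_tau {n : ℕ} {Y : Type} [Fintype Y] [DecidableEq Y] (r : Y → ℝ) (d : ℝ)
    (η : Finset (Fin n × Y)) :
    tau d r η = (fun _ => d) + ∑ x ∈ η, r x.2 • Pi.single x.1 (1 : ℝ) := by
  funext i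
  rw [Pi.add_apply, Finset.sum_apply]
  unfold tau
  congr 1
  have h1 : ∑ x ∈ η, (r x.2 • Pi.single (M := fun _ => ℝ) x.1 (1 : ℝ)) i
      = ∑ x : Fin n × Y, if x ∈ η then (r x.2 • Pi.single (M := fun _ => ℝ) x.1 (1 : ℝ)) i
        else 0 := by
    rw [← Finset.sum_filter]
    simp
  rw [h1, Fintype.sum_prod_type, Finset.sum_eq_single i]
  · refine Finset.sum_congr rfl fun y _ => ?_
    simp
  · intro j _ hj
    refine Finset.sum_eq_zero fun y _ => ?_
    rw [Pi.smul_apply, Pi.single_eq_of_ne hj.symm]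
    simp
  · intro h
    exact absurd (Finset.mem_univ i) h

theorem pe_ld {n : ℕ} {Y : Type} [Fintype Y] [DecidableEq Y] (r z : Y → ℝ) (d : ℝ)
    (t : Fin n → ℝ) :
    (fun i => ld d r z (t i)) = (fun _ => d) + ∑ x : Fin n × Y,
      (r x.2 * ((z x.2 * Real.exp (-(t x.1 * r x.2)))
        / (1 + z x.2 * Real.exp (-(t x.1 * r x.2))))) • Pi.single x.1 (1 : ℝ) := by
  funext i
  rw [Pi.add_apply, Finset.sum_apply, Fintype.sum_prod_type, Finset.sum_eq_single i]
  · unfold ld bz
    congr 1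
    refine Finset.sum_congr rfl fun y _ => ?_
    simp
  · intro j _ hj
    refine Finset.sum_eq_zero fun y _ => ?_
    rw [Pi.smul_apply, Pi.single_eq_of_ne hj.symm]
    simp
  · intro h
    exact absurd (Finset.mem_univ i) h

theorem pe_lam {n : ℕ} {Y : Type} [Fintype Y] [DecidableEq Y] (r z : Y → ℝ) (d : ℝ)
    (hz : ∀ y, 0 < z y) (u : Fin n → ℝ) :
    (∏ y, (1 + z y)) ^ n * Real.exp (-∑ i, lam d r z (u i))
      = Real.exp (-(d * ∑ i, u i)) * ∏ x : Fin n × Y, (1 + z x.2
        * Real.exp (-(u x.1 * r x.2))) := by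
  have h1 : ∀ v : ℝ, (∏ y, (1 + z y)) * Real.exp (-lam d r z v)
      = Real.exp (-(d * v)) * ∏ y, (1 + z y * Real.exp (-(v * r y))) := by
    intro v
    unfold lam
    rw [neg_add, Real.exp_add, ← Finset.sum_neg_distrib, Real.exp_sum, mul_left_comm,
      ← Finset.prod_mul_distrib]
    congr 1
    refine Finset.prod_congr rfl fun y _ => ?_
    have h0 : 0 < 1 + z y := by linarith [hz y]
    have hp : 0 < (1 + z y) / (1 + z y * Real.exp (-(v * r y))) :=
      div_pos h0 (by linarith [mul_pos (hz y) (Real.exp_pos (-(v * r y)))])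
    rw [← Real.log_inv, Real.exp_log (inv_pos.2 hp), inv_div, mul_div_assoc']
    exact mul_div_cancel_left₀ _ h0.ne'
  have h2 : (∏ y, (1 + z y)) ^ n = ∏ _i : Fin n, ∏ y, (1 + z y) := by
    rw [Finset.prod_const, Finset.card_univ, Fintype.card_fin]
  rw [h2, ← Finset.sum_neg_distrib, Real.exp_sum, ← Finset.prod_mul_distrib,
    Finset.prod_congr rfl fun i _ => h1 (u i), Finset.prod_mul_distrib, ← Real.exp_sum,
    Fintype.prod_prod_type]
  congr 2
  rw [Finset.mul_sum, Finset.sum_neg_distrib]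

theorem PE : ST_PE := by
  intro n Y _ _ δ r z hδ hr hz F hF t
  have hb : (fun _ : Fin n => δ) ∈ Og n := fun _ => hδ
  have hk := pe_key F hF (fun x : Fin n × Y => x.1)
    (fun x : Fin n × Y => z x.2 * Real.exp (-(t x.1 * r x.2))) (fun x => r x.2)
    (fun x => (mul_pos (hz x.2) (Real.exp_pos _)).le) (fun x => (hr x.2).le) Finset.univ _ hb
  rw [pe_lam r z δ hz t, pe_ld r z δ t, mul_assoc, ← hk, Finset.mul_sum, Finset.powerset_univ]
  refine Finset.sum_congr rfl fun η _ => ?_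
  rw [← pe_tau, ← mul_assoc]
  congr 1
  unfold zw
  rw [Finset.prod_mul_distrib, ← Real.exp_sum, mul_left_comm, ← Real.exp_add, pe_sum_mem, neg_add,
    Finset.sum_neg_distrib]

end Pool.Agent.Helper2.GH
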